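import Mathlib

/-! Polynomials with bounded coefficients, products of binomials `X ^ e - 1`, and reading off
coefficients from one integer value. -/

namespace Pool.Agent.R877.CY

open Polynomial

/-- all coefficients are at most `M` in absolute value -/
def Bd (P : ℤ[X]) (M : ℤ) : Prop := ∀ i, |P.coeff i| ≤ M

theorem Bd.mul_bin {P : ℤ[X]} {M : ℤ} (h : Bd P M) (e : ℕ) : Bd (P * (X ^ e - 1)) (2 * M) := by
  intro i
  rw [mul_sub, mul_one, coeff_sub, coeff_mul_X_pow']
  have h0 : 0 ≤ M := le_trans (abs_nonneg _) (h 0)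
  have h1 := h i
  split_ifs
  · have h2 := h (i - e)
    rw [abs_le] at *
    constructor <;> omega
  · rw [abs_le] at *
    constructor <;> omega

theorem Bd.mul_bin_pow {P : ℤ[X]} {M : ℤ} (h : Bd P M) (e k : ℕ) :
    Bd (P * (X ^ e - 1) ^ k) (2 ^ k * M) := by
  induction k with
  | zero => simpa using h
  | succ k ih =>
    have := ih.mul_bin e
    rw [pow_succ, ← mul_assoc, pow_succ]
    intro i
    have h1 := this i
    have e1 : 2 ^ k * 2 * M = 2 * (2 ^ k * M) := by ring
    rw [e1]
    exact h1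

/-- product of the binomials `(X ^ e - 1) ^ k` over the pairs `(e, k)` of the list -/
noncomputable def binProd (l : List (ℕ × ℕ)) : ℤ[X] := (l.map (fun p => (X ^ p.1 - 1) ^ p.2)).prod

def expSum (l : List (ℕ × ℕ)) : ℕ := (l.map Prod.snd).sum

theorem Bd.mul_binProd (l : List (ℕ × ℕ)) : ∀ {P : ℤ[X]} {M : ℤ}, Bd P M →
    Bd (P * binProd l) (2 ^ expSum l * M) := by
  induction l with
  | nil => intro P M h; simpa [binProd, expSum] using h
  | cons p l ih =>
    intro P M h
    have h1 := ih (h.mul_bin_pow p.1 p.2)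
    have e1 : P * binProd (p :: l) = P * (X ^ p.1 - 1) ^ p.2 * binProd l := by
      simp [binProd, mul_assoc]
    have e2 : 2 ^ expSum (p :: l) * M = 2 ^ expSum l * (2 ^ p.2 * M) := by
      simp only [expSum, List.map_cons, List.sum_cons, pow_add]
      ring
    rw [e1, e2]
    exact h1

theorem Bd_one : Bd (1 : ℤ[X]) 1 := by
  intro i
  rw [coeff_one]
  split_ifs <;> simp

theorem Bd_binProd (l : List (ℕ × ℕ)) : Bd (binProd l) (2 ^ expSum l) := by
  have := Bd_one.mul_binProd l
  simpa using this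

/-- values of the binomial products -/
def valProd (b : ℕ) (l : List (ℕ × ℕ)) : ℕ := (l.map (fun p => (b ^ p.1 - 1) ^ p.2)).prod

theorem eval_binProd (b : ℕ) (hb : 0 < b) (l : List (ℕ × ℕ)) :
    (binProd l).eval (b : ℤ) = (valProd b l : ℤ) := by
  induction l with
  | nil => simp [binProd, valProd]
  | cons p l ih =>
    have e1 : binProd (p :: l) = (X ^ p.1 - 1) ^ p.2 * binProd l := by simp [binProd]
    have e2 : valProd b (p :: l) = (b ^ p.1 - 1) ^ p.2 * valProd b l := by simp [valProd]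
    rw [e1, e2, eval_mul, ih]
    have : 1 ≤ b ^ p.1 := Nat.one_le_pow _ _ hb
    simp [Nat.cast_sub this]

theorem eq_zero_of_eval (b M : ℤ) (hMb : M < b) : ∀ (n : ℕ) (R : ℤ[X]), R.natDegree < n → Bd R M →
    R.eval b = 0 → R = 0 := by
  intro n
  induction n with
  | zero => intro R h; omega
  | succ n ih =>
    intro R hn hR h0
    have hM0 : 0 ≤ M := le_trans (abs_nonneg _) (hR 0)
    have hdec : R = divX R * X + C (R.coeff 0) := (divX_mul_X_add R).symm
    have hev : (divX R).eval b * b + R.coeff 0 = 0 := by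
      have := congrArg (eval b) hdec
      rw [h0] at this
      simpa using this.symm
    have hdvd : b ∣ R.coeff 0 := ⟨-(divX R).eval b, by linear_combination hev⟩
    have hc0 : R.coeff 0 = 0 := by
      apply Int.eq_zero_of_abs_lt_dvd hdvd
      exact lt_of_le_of_lt (hR 0) hMb
    have hb0 : b ≠ 0 := by omega
    have hev' : (divX R).eval b = 0 := by
      rw [hc0, add_zero] at hev
      exact (mul_eq_zero.mp hev).resolve_right hb0
    have hBd : Bd (divX R) M := by
      intro i
      rw [coeff_divX]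
      exact hR _
    have hz : divX R = 0 := by
      rcases Nat.eq_zero_or_pos R.natDegree with hd | hd
      · rw [eq_C_of_natDegree_eq_zero hd]
        exact divX_C _
      · apply ih _ _ hBd hev'
        rw [natDegree_divX_eq_natDegree_tsub_one]
        omega
    rw [hdec, hz, hc0]
    simp

/-- all `2 ^ k` digits of `W` are at most `C` -/
noncomputable def chk (b C : ℕ) (k : ℕ) : ℕ → Bool :=
  Nat.rec (motive := fun _ => ℕ → Bool) (fun W => Nat.ble W C)
    (fun k ih W => cond (ih (Nat.mod W (Nat.pow b (Nat.pow 2 k))))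
      (ih (Nat.div W (Nat.pow b (Nat.pow 2 k)))) false) k

theorem chk_zero (b C W : ℕ) : chk b C 0 W = Nat.ble W C := rfl

theorem chk_succ (b C k W : ℕ) : chk b C (k + 1) W =
    cond (chk b C k (W % b ^ 2 ^ k)) (chk b C k (W / b ^ 2 ^ k)) false := rfl

attribute [irreducible] chk

theorem chk_spec (b C : ℕ) (hC : C < b) (k : ℕ) : ∀ W, chk b C k W = true →
    W < b ^ 2 ^ k ∧ ∀ i, W / b ^ i % b ≤ C := by
  have hb : 0 < b := by omega
  induction k with
  | zero =>
    intro W h
    rw [chk_zero] at h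
    have h1 := Nat.le_of_ble_eq_true h
    refine ⟨by simpa using lt_of_le_of_lt h1 hC, fun i => ?_⟩
    exact le_trans (Nat.mod_le _ _) (le_trans (Nat.div_le_self _ _) h1)
  | succ k ih =>
    intro W h
    rw [chk_succ] at h
    have hand : chk b C k (W % b ^ 2 ^ k) = true ∧ chk b C k (W / b ^ 2 ^ k) = true := by
      revert h
      cases chk b C k (W % b ^ 2 ^ k) <;> cases chk b C k (W / b ^ 2 ^ k) <;> simp
    obtain ⟨-, h1⟩ := ih _ hand.1
    obtain ⟨h2, h3⟩ := ih _ hand.2
    refine ⟨?_, fun i => ?_⟩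
    · rw [pow_succ, mul_two, pow_add]
      exact (Nat.div_lt_iff_lt_mul (pow_pos hb _)).mp h2
    · rcases Nat.lt_or_ge i (2 ^ k) with hi | hi
      · have e1 : W = W % b ^ 2 ^ k + b ^ i * (b ^ (2 ^ k - i) * (W / b ^ 2 ^ k)) := by
          rw [← mul_assoc, ← pow_add]
          have : i + (2 ^ k - i) = 2 ^ k := by omega
          rw [this]
          exact (Nat.mod_add_div W (b ^ 2 ^ k)).symm
        have e2 : W / b ^ i % b = (W % b ^ 2 ^ k) / b ^ i % b := by
          conv_lhs => rw [e1]
          rw [Nat.add_mul_div_left _ _ (pow_pos hb i)]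
          have e3 : b ^ (2 ^ k - i) * (W / b ^ 2 ^ k) =
              b * (b ^ (2 ^ k - i - 1) * (W / b ^ 2 ^ k)) := by
            rw [← mul_assoc, ← pow_succ']
            congr 2
            omega
          rw [e3, Nat.add_mul_mod_self_left]
        rw [e2]
        exact h1 i
      · have e1 : W / b ^ i = W / b ^ 2 ^ k / b ^ (i - 2 ^ k) := by
          rw [Nat.div_div_eq_div_mul, ← pow_add]
          congr 2
          omega
        rw [e1]
        exact h3 _

theorem sum_digits (b W m : ℕ) :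
    ∑ i ∈ Finset.range m, (W / b ^ i % b) * b ^ i = W % b ^ m := by
  induction m with
  | zero => simp [Nat.mod_one]
  | succ m ih =>
    rw [Finset.sum_range_succ, ih, Nat.mod_pow_succ]
    ring

/-- Main reading lemma: if `P * binProd l₂ = binProd l₁`, and the integer `v + C * ones` has small
digits, then the coefficients of `P` are the digits minus `C`. -/
theorem read (P : ℤ[X]) (l₁ l₂ : List (ℕ × ℕ)) (b C k v ones : ℕ)
    (hP : P * binProd l₂ = binProd l₁)
    (hv : v * valProd b l₂ = valProd b l₁)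
    (hones : (b - 1) * ones + 1 = b ^ 2 ^ k)
    (hchk : chk b (2 * C) k (v + C * ones) = true)
    (hb : 2 ^ expSum l₂ * C + 2 ^ expSum l₁ < b)
    (hC : 2 * C < b) (hl₂ : valProd b l₂ ≠ 0) :
    ∀ i, P.coeff i = if i < 2 ^ k then (((v + C * ones) / b ^ i % b : ℕ) : ℤ) - C else 0 := by
  set W := v + C * ones with hW
  have hb0 : 0 < b := by omega
  obtain ⟨hWlt, hdig⟩ := chk_spec b (2 * C) hC k W hchk
  set Q : ℤ[X] := ∑ i ∈ Finset.range (2 ^ k), Polynomial.C ((((W / b ^ i % b : ℕ) : ℤ)) - C) * X ^ i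
    with hQ
  have hcoef : ∀ i, Q.coeff i = if i < 2 ^ k then (((W / b ^ i % b : ℕ) : ℤ)) - C else 0 := by
    intro i
    rw [hQ, finsetSum_coeff]
    simp only [coeff_C_mul, coeff_X_pow, mul_ite, mul_one, mul_zero]
    rw [Finset.sum_ite_eq]
    simp
  have hQBd : Bd Q C := by
    intro i
    rw [hcoef]
    split_ifs
    · have h1 := hdig i
      rw [abs_le]
      constructor <;> omega
    · simp
  have hgeom : (b : ℤ) ^ 2 ^ k - 1 = (∑ i ∈ Finset.range (2 ^ k), (b : ℤ) ^ i) * ((b : ℤ) - 1) :=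
    (geom_sum_mul _ _).symm
  have hb1 : (1 : ℤ) < b := by
    have h1 : 1 ≤ 2 ^ expSum l₁ := Nat.one_le_two_pow
    have : 1 < b := by omega
    exact_mod_cast this
  have hones' : (ones : ℤ) = ∑ i ∈ Finset.range (2 ^ k), (b : ℤ) ^ i := by
    have h1 : ((b : ℤ) - 1) * ones + 1 = (b : ℤ) ^ 2 ^ k := by
      have h2 : (((b - 1) * ones + 1 : ℕ) : ℤ) = ((b ^ 2 ^ k : ℕ) : ℤ) := by rw [hones]
      rw [Nat.cast_add, Nat.cast_mul, Nat.cast_sub (by omega)] at h2
      push_cast at h2
      exact h2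
    have h3 : ((b : ℤ) - 1) * ones = ((b : ℤ) - 1) * ∑ i ∈ Finset.range (2 ^ k), (b : ℤ) ^ i := by
      linear_combination h1 + hgeom
    exact mul_left_cancel₀ (by omega) h3
  have hWsum : (W : ℤ) = ∑ i ∈ Finset.range (2 ^ k), ((W / b ^ i % b : ℕ) : ℤ) * (b : ℤ) ^ i := by
    have h1 := sum_digits b W (2 ^ k)
    rw [Nat.mod_eq_of_lt hWlt] at h1
    have h2 : ((∑ i ∈ Finset.range (2 ^ k), (W / b ^ i % b) * b ^ i : ℕ) : ℤ) = (W : ℤ) := by rw [h1]
    rw [← h2, Nat.cast_sum]
    apply Finset.sum_congr rfl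
    intro i _
    rw [Nat.cast_mul, Nat.cast_pow]
  have hQev : Q.eval (b : ℤ) = v := by
    rw [hQ, eval_finsetSum]
    simp only [eval_mul, eval_C, eval_pow, eval_X, sub_mul]
    rw [Finset.sum_sub_distrib, ← hWsum, ← Finset.mul_sum, ← hones', hW]
    push_cast
    ring
  have hR : Q * binProd l₂ - binProd l₁ = 0 := by
    have hBd : Bd (Q * binProd l₂ - binProd l₁) (2 ^ expSum l₂ * C + 2 ^ expSum l₁) := by
      intro i
      rw [coeff_sub]
      have h1 := hQBd.mul_binProd l₂ i
      have h2 := Bd_binProd l₁ i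
      exact le_trans (abs_sub _ _) (add_le_add h1 h2)
    apply eq_zero_of_eval b _ _ _ _ (Nat.lt_succ_self _) hBd
    · rw [eval_sub, eval_mul, hQev, eval_binProd b hb0, eval_binProd b hb0]
      have : ((v * valProd b l₂ : ℕ) : ℤ) = ((valProd b l₁ : ℕ) : ℤ) := by rw [hv]
      rw [Nat.cast_mul] at this
      rw [this, sub_self]
    · exact_mod_cast hb
  have hne : binProd l₂ ≠ 0 := by
    intro h0
    have h1 := eval_binProd b hb0 l₂
    rw [h0, eval_zero] at h1
    exact hl₂ (by exact_mod_cast h1.symm)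
  have hQP : Q = P := by
    apply mul_right_cancel₀ hne
    rw [hP]
    exact sub_eq_zero.mp hR
  intro i
  rw [← hQP]
  exact hcoef i

end Pool.Agent.R877.CY
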