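import Mathlib
import Pool.Agent.R877.CY.Basic

/-! The polynomials `P_odd` and `P_even` of `n = 10374 = 2 * 3 * 7 * 13 * 19` as quotients of products
of binomials. -/

namespace Pool.Agent.R877.CY

open Polynomial

/-- product of the cyclotomic polynomials `Φ_d`, `d ∣ n`, with an odd number of distinct primes
dividing `d` -/
noncomputable def Podd (n : ℕ) : ℤ[X] :=
  ∏ d ∈ n.divisors with Odd d.primeFactors.card, cyclotomic d ℤ

/-- product of the cyclotomic polynomials `Φ_d`, `d ∣ n`, with an even number of distinct primes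
dividing `d` -/
noncomputable def Peven (n : ℕ) : ℤ[X] :=
  ∏ d ∈ n.divisors with Even d.primeFactors.card, cyclotomic d ℤ

theorem Podd_mul_Peven (n : ℕ) (hn : 0 < n) : Podd n * Peven n = X ^ n - 1 := by
  rw [← prod_cyclotomic_eq_X_pow_sub_one hn]
  unfold Podd Peven
  rw [← Finset.prod_filter_mul_prod_filter_not n.divisors (fun d => Odd d.primeFactors.card)]
  simp only [Nat.not_odd_iff_even]

theorem X_sub_one_dvd_Peven (n : ℕ) (hn : n ≠ 0) : (X - 1 : ℤ[X]) ∣ Peven n := by
  unfold Peven
  rw [← cyclotomic_one ℤ]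
  apply Finset.dvd_prod_of_mem (fun d => cyclotomic d ℤ)
  rw [Finset.mem_filter]
  exact ⟨Nat.one_mem_divisors.mpr hn, by simp⟩

abbrev N : ℕ := 10374

theorem N_factors : (N : ℕ).primeFactors = {2, 3, 7, 13, 19} := by
  have h : (N : ℕ) = 2 * (3 * (7 * (13 * 19))) := by norm_num
  rw [h, Nat.primeFactors_mul (by norm_num) (by norm_num),
    Nat.primeFactors_mul (by norm_num) (by norm_num),
    Nat.primeFactors_mul (by norm_num) (by norm_num),
    Nat.primeFactors_mul (by norm_num) (by norm_num),
    Nat.Prime.primeFactors (by norm_num), Nat.Prime.primeFactors (by norm_num),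
    Nat.Prime.primeFactors (by norm_num), Nat.Prime.primeFactors (by norm_num),
    Nat.Prime.primeFactors (by norm_num)]
  rfl

/-- number of the primes `2, 3, 7, 13, 19` dividing `d` -/
def om (d : ℕ) : ℕ := (({2, 3, 7, 13, 19} : Finset ℕ).filter (· ∣ d)).card

theorem card_primeFactors (d : ℕ) (hd : d ∈ (N : ℕ).divisors) : d.primeFactors.card = om d := by
  have hdN : d ∣ N := Nat.dvd_of_mem_divisors hd
  have hd0 : d ≠ 0 := by
    rintro rfl
    simp at hdN
  unfold om
  congr 1
  ext p
  rw [Finset.mem_filter, ← N_factors, Nat.mem_primeFactors, Nat.mem_primeFactors]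
  constructor
  · rintro ⟨h1, h2, -⟩
    exact ⟨⟨h1, h2.trans hdN, by norm_num⟩, h2⟩
  · rintro ⟨⟨h1, -, -⟩, h2⟩
    exact ⟨h1, h2, hd0⟩

/-- multiplicity of `Φ_d` in `binProd l` -/
def mult (l : List (ℕ × ℕ)) (d : ℕ) : ℕ := (l.map (fun p => if d ∣ p.1 then p.2 else 0)).sum

theorem binProd_eq (l : List (ℕ × ℕ)) (hl : ∀ p ∈ l, p.1 ∣ N) :
    binProd l = ∏ d ∈ (N : ℕ).divisors, (cyclotomic d ℤ) ^ mult l d := by
  induction l with
  | nil => simp [binProd, mult]
  | cons p l ih =>
    have h1 : p.1 ∣ N := hl p List.mem_cons_self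
    have h2 := ih (fun q hq => hl q (List.mem_cons_of_mem _ hq))
    have hp0 : 0 < p.1 := Nat.pos_of_dvd_of_pos h1 (by norm_num)
    have e1 : (X ^ p.1 - 1 : ℤ[X]) = ∏ d ∈ (N : ℕ).divisors,
        (cyclotomic d ℤ) ^ (if d ∣ p.1 then 1 else 0) := by
      rw [← prod_cyclotomic_eq_X_pow_sub_one hp0, ← Nat.divisors_filter_dvd_of_dvd (by norm_num) h1,
        Finset.prod_filter]
      apply Finset.prod_congr rfl
      intro d _
      split_ifs <;> simp
    have e2 : binProd (p :: l) = (X ^ p.1 - 1) ^ p.2 * binProd l := by simp [binProd]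
    rw [e2, e1, h2, ← Finset.prod_pow, ← Finset.prod_mul_distrib]
    apply Finset.prod_congr rfl
    intro d _
    rw [← pow_mul, ← pow_add]
    congr 1
    simp only [mult, List.map_cons, List.sum_cons]
    split_ifs <;> simp

/-- exponents of the numerator of `P_odd` -/
def lO : List (ℕ × ℕ) :=
  [(2, 8), (3, 8), (7, 8), (13, 8), (19, 8),
   (42, 2), (78, 2), (114, 2), (182, 2), (266, 2), (494, 2), (273, 2), (399, 2), (741, 2), (1729, 2),
   (10374, 1)]

/-- the same without the full binomial: denominator of `P_even` -/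
def lO' : List (ℕ × ℕ) :=
  [(2, 8), (3, 8), (7, 8), (13, 8), (19, 8),
   (42, 2), (78, 2), (114, 2), (182, 2), (266, 2), (494, 2), (273, 2), (399, 2), (741, 2), (1729, 2)]

/-- exponents of the denominator of `P_odd`, numerator of `P_even` -/
def lE : List (ℕ × ℕ) :=
  [(1, 16), (6, 4), (14, 4), (26, 4), (38, 4), (21, 4), (39, 4), (57, 4), (91, 4), (133, 4), (247, 4),
   (546, 1), (798, 1), (1482, 1), (3458, 1), (5187, 1)]

theorem divisors_N : (N : ℕ).divisors = {1, 2, 3, 6, 7, 13, 14, 19, 21, 26, 38, 39, 42, 57, 78, 91,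
    114, 133, 182, 247, 266, 273, 399, 494, 546, 741, 798, 1482, 1729, 3458, 5187, 10374} := by
  decide +kernel

theorem mults : ∀ d ∈ ({1, 2, 3, 6, 7, 13, 14, 19, 21, 26, 38, 39, 42, 57, 78, 91,
    114, 133, 182, 247, 266, 273, 399, 494, 546, 741, 798, 1482, 1729, 3458, 5187, 10374} : Finset ℕ),
    (if Odd (om d) then 1 else 0) + mult lE d = mult lO d ∧
    (if Even (om d) then 1 else 0) + mult lO' d = mult lE d := by
  decide +kernel

theorem Podd_mul : Podd N * binProd lE = binProd lO := by
  rw [binProd_eq lE (by decide +kernel), binProd_eq lO (by decide +kernel)]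
  unfold Podd
  rw [Finset.prod_filter, ← Finset.prod_mul_distrib]
  apply Finset.prod_congr rfl
  intro d hd
  have h1 := card_primeFactors d hd
  rw [divisors_N] at hd
  have h2 := (mults d hd).1
  rw [h1, ← h2, pow_add]
  split_ifs <;> simp

theorem Peven_mul : Peven N * binProd lO' = binProd lE := by
  rw [binProd_eq lE (by decide +kernel), binProd_eq lO' (by decide +kernel)]
  unfold Peven
  rw [Finset.prod_filter, ← Finset.prod_mul_distrib]
  apply Finset.prod_congr rfl
  intro d hd
  have h1 := card_primeFactors d hd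
  rw [divisors_N] at hd
  have h2 := (mults d hd).2
  rw [h1, ← h2, pow_add]
  split_ifs <;> simp

end Pool.Agent.R877.CY
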