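import Mathlib
import Pool.Agent.R877.CY.Basic

/-! Reading off the coefficients of a polynomial from one integer value, with the bound of the
digits checked by a single bitwise `and`. -/

namespace Pool.Agent.R877.CY

open Polynomial

/-- the number with `2 ^ k` digits `1` in base `2 ^ w` -/
def on (w k : ℕ) : ℕ :=
  Nat.rec 1 (fun k ih => Nat.mul ih (Nat.add 1 (Nat.pow 2 (Nat.mul w (Nat.pow 2 k))))) k

theorem on_zero (w : ℕ) : on w 0 = 1 := rfl

theorem on_succ (w k : ℕ) : on w (k + 1) = on w k * (1 + 2 ^ (w * 2 ^ k)) := rfl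

attribute [irreducible] on

theorem on_spec (w k : ℕ) : (2 ^ w - 1) * on w k + 1 = 2 ^ (w * 2 ^ k) := by
  induction k with
  | zero =>
    rw [on_zero, mul_one, pow_zero, mul_one]
    exact Nat.sub_add_cancel Nat.one_le_two_pow
  | succ k ih =>
    have e : 2 ^ (w * 2 ^ (k + 1)) = 2 ^ (w * 2 ^ k) * 2 ^ (w * 2 ^ k) := by
      rw [← pow_add, pow_succ]
      congr 1
      ring
    rw [e, on_succ, ← ih]
    ring

/-- mask of the digits bits `m, ..., w - 1` of the `2 ^ k` digits -/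
theorem mask_lt (w m k : ℕ) : (2 ^ w - 2 ^ m) * on w k < 2 ^ (w * 2 ^ k) := by
  rw [← on_spec]
  have h1 : 2 ^ w - 2 ^ m ≤ 2 ^ w - 1 := Nat.sub_le_sub_left Nat.one_le_two_pow _
  exact Nat.lt_succ_of_le (Nat.mul_le_mul_right _ h1)

theorem land_base (w m W : ℕ) (h : W &&& (2 ^ w - 2 ^ m) = 0) (hm : m ≤ w) : W % 2 ^ w < 2 ^ m := by
  by_contra hcon
  push Not at hcon
  obtain ⟨j, hj1, hj2⟩ := Nat.exists_ge_and_testBit_of_ge_two_pow hcon
  rw [Nat.testBit_mod_two_pow] at hj2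
  have hj3 : j < w ∧ W.testBit j = true := by simpa using hj2
  have e : 2 ^ w - 2 ^ m = 2 ^ m * (2 ^ (w - m) - 1) := by
    rw [Nat.mul_sub, ← pow_add, mul_one]
    congr 2
    omega
  have h2 : (2 ^ w - 2 ^ m).testBit j = true := by
    rw [e, Nat.testBit_two_pow_mul, Nat.testBit_two_pow_sub_one]
    simp only [Bool.and_eq_true, decide_eq_true_eq]
    exact ⟨hj1, by omega⟩
  have h3 := congrArg (fun n => n.testBit j) h
  simp only [Nat.testBit_and, hj3.2, h2, Nat.zero_testBit] at h3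
  exact absurd h3 (by decide)

theorem land_digits (w m : ℕ) (hm : m ≤ w) (k : ℕ) : ∀ W, W &&& ((2 ^ w - 2 ^ m) * on w k) = 0 →
    ∀ i, i < 2 ^ k → W / (2 ^ w) ^ i % 2 ^ w < 2 ^ m := by
  induction k with
  | zero =>
    intro W h i hi
    have hi0 : i = 0 := by
      rw [pow_zero] at hi
      omega
    subst hi0
    rw [on_zero, mul_one] at h
    rw [pow_zero, Nat.div_one]
    exact land_base w m W h hm
  | succ k ih =>
    intro W h i hi
    have hM := mask_lt w m k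
    set M := (2 ^ w - 2 ^ m) * on w k with hMdef
    have e1 : (2 ^ w - 2 ^ m) * on w (k + 1) = M + 2 ^ (w * 2 ^ k) * M := by
      rw [on_succ, hMdef]
      ring
    rw [e1] at h
    have hb0 : 0 < 2 ^ (w * 2 ^ k) := by positivity
    have h1 : (W % 2 ^ (w * 2 ^ k)) &&& M = 0 := by
      have := congrArg (fun n => n % 2 ^ (w * 2 ^ k)) h
      simp only [Nat.and_mod_two_pow, Nat.zero_mod, Nat.add_mul_mod_self_left,
        Nat.mod_eq_of_lt hM] at this
      exact this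
    have h2 : (W / 2 ^ (w * 2 ^ k)) &&& M = 0 := by
      have := congrArg (fun n => n / 2 ^ (w * 2 ^ k)) h
      simp only [Nat.and_div_two_pow, Nat.zero_div, Nat.add_mul_div_left _ _ hb0,
        Nat.div_eq_of_lt hM, Nat.zero_add] at this
      exact this
    have hBB : 2 ^ (w * 2 ^ k) = (2 ^ w) ^ 2 ^ k := by rw [pow_mul]
    rcases Nat.lt_or_ge i (2 ^ k) with hi2 | hi2
    · have h3 := ih _ h1 i hi2
      have e2 : W / (2 ^ w) ^ i % 2 ^ w = (W % 2 ^ (w * 2 ^ k)) / (2 ^ w) ^ i % 2 ^ w := by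
        have e3 : W = W % 2 ^ (w * 2 ^ k) +
            (2 ^ w) ^ i * ((2 ^ w) ^ (2 ^ k - i) * (W / 2 ^ (w * 2 ^ k))) := by
          rw [← mul_assoc, ← pow_add]
          have : i + (2 ^ k - i) = 2 ^ k := by omega
          rw [this, ← hBB]
          exact (Nat.mod_add_div W (2 ^ (w * 2 ^ k))).symm
        conv_lhs => rw [e3]
        rw [Nat.add_mul_div_left _ _ (by positivity)]
        have e4 : (2 ^ w) ^ (2 ^ k - i) * (W / 2 ^ (w * 2 ^ k)) =
            2 ^ w * ((2 ^ w) ^ (2 ^ k - i - 1) * (W / 2 ^ (w * 2 ^ k))) := by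
          rw [← mul_assoc, ← pow_succ']
          congr 2
          omega
        rw [e4, Nat.add_mul_mod_self_left]
      rw [e2]
      exact h3
    · have h3 := ih _ h2 (i - 2 ^ k) (by rw [pow_succ] at hi; omega)
      have e2 : W / (2 ^ w) ^ i = W / 2 ^ (w * 2 ^ k) / (2 ^ w) ^ (i - 2 ^ k) := by
        rw [Nat.div_div_eq_div_mul, hBB, ← pow_add]
        congr 2
        omega
      rw [e2]
      exact h3

/-- Reading lemma: the coefficients of `P` are the digits of `W` minus `C`, and the digits are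
less than `2 ^ m`. -/
theorem read2 (P L : ℤ[X]) (l₂ : List (ℕ × ℕ)) (w m k C W : ℕ) (M : ℤ)
    (hP : P * binProd l₂ = L) (hL : Bd L M)
    (hev : L.eval ((2 ^ w : ℕ) : ℤ) = ((W : ℤ) - C * on w k) * (valProd (2 ^ w) l₂ : ℕ))
    (hland : W &&& ((2 ^ w - 2 ^ m) * on w k) = 0)
    (hW : W < (2 ^ w) ^ 2 ^ k) (hm : m ≤ w) (hC : C ≤ 2 ^ m)
    (hb : 2 ^ expSum l₂ * 2 ^ m + M < 2 ^ w) (hw : 0 < w)
    (hne : valProd (2 ^ w) l₂ ≠ 0) :
    ∀ i, P.coeff i = if i < 2 ^ k then ((W / (2 ^ w) ^ i % 2 ^ w : ℕ) : ℤ) - C else 0 := by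
  have hdig := land_digits w m hm k W hland
  have hon := on_spec w k
  rw [pow_mul] at hon
  generalize hbb : 2 ^ w = b at *
  have hb1' : 1 < b := by
    rw [← hbb]
    exact Nat.one_lt_two_pow hw.ne'
  have hb0 : 0 < b := by omega
  set Q : ℤ[X] := ∑ i ∈ Finset.range (2 ^ k), Polynomial.C ((((W / b ^ i % b : ℕ) : ℤ)) - C) * X ^ i
    with hQ
  have hcoef : ∀ i, Q.coeff i = if i < 2 ^ k then (((W / b ^ i % b : ℕ) : ℤ)) - C else 0 := by
    intro i
    rw [hQ, finsetSum_coeff]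
    simp only [coeff_C_mul, coeff_X_pow, mul_ite, mul_one, mul_zero]
    rw [Finset.sum_ite_eq]
    simp
  have hQBd : Bd Q (2 ^ m) := by
    intro i
    rw [hcoef]
    split_ifs with hi
    · have h1 := hdig i hi
      have h2 : ((W / b ^ i % b : ℕ) : ℤ) < 2 ^ m := by exact_mod_cast h1
      have h3 : ((C : ℕ) : ℤ) ≤ 2 ^ m := by exact_mod_cast hC
      rw [abs_le]
      constructor <;> omega
    · simp
  have hgeom : (b : ℤ) ^ 2 ^ k - 1 = (∑ i ∈ Finset.range (2 ^ k), (b : ℤ) ^ i) * ((b : ℤ) - 1) :=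
    (geom_sum_mul _ _).symm
  have hb1 : (1 : ℤ) < b := by exact_mod_cast hb1'
  have hones' : (on w k : ℤ) = ∑ i ∈ Finset.range (2 ^ k), (b : ℤ) ^ i := by
    have h1 : ((b : ℤ) - 1) * on w k + 1 = (b : ℤ) ^ 2 ^ k := by
      have h2 : (((b - 1) * on w k + 1 : ℕ) : ℤ) = ((b ^ 2 ^ k : ℕ) : ℤ) := by rw [hon]
      rw [Nat.cast_add, Nat.cast_mul, Nat.cast_sub (by omega)] at h2
      push_cast at h2
      exact h2
    have h3 : ((b : ℤ) - 1) * on w k = ((b : ℤ) - 1) * ∑ i ∈ Finset.range (2 ^ k), (b : ℤ) ^ i := by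
      linear_combination h1 + hgeom
    exact mul_left_cancel₀ (by omega) h3
  have hWsum : (W : ℤ) = ∑ i ∈ Finset.range (2 ^ k), ((W / b ^ i % b : ℕ) : ℤ) * (b : ℤ) ^ i := by
    have h1 := sum_digits b W (2 ^ k)
    rw [Nat.mod_eq_of_lt hW] at h1
    have h2 : ((∑ i ∈ Finset.range (2 ^ k), (W / b ^ i % b) * b ^ i : ℕ) : ℤ) = (W : ℤ) := by rw [h1]
    rw [← h2, Nat.cast_sum]
    apply Finset.sum_congr rfl
    intro i _
    rw [Nat.cast_mul, Nat.cast_pow]
  have hQev : Q.eval (b : ℤ) = (W : ℤ) - C * on w k := by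
    rw [hQ, eval_finsetSum]
    simp only [eval_mul, eval_C, eval_pow, eval_X, sub_mul]
    rw [Finset.sum_sub_distrib, ← hWsum, ← Finset.mul_sum, ← hones']
  have hR : Q * binProd l₂ - L = 0 := by
    have hBd : Bd (Q * binProd l₂ - L) (2 ^ expSum l₂ * 2 ^ m + M) := by
      intro i
      rw [coeff_sub]
      have h1 := hQBd.mul_binProd l₂ i
      have h2 := hL i
      exact le_trans (abs_sub _ _) (add_le_add h1 h2)
    apply eq_zero_of_eval b _ _ _ _ (Nat.lt_succ_self _) hBd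
    · rw [eval_sub, eval_mul, hQev, eval_binProd b hb0, hev, sub_self]
    · rw [← hbb]
      exact_mod_cast hb
  have hne' : binProd l₂ ≠ 0 := by
    intro h0
    have h1 := eval_binProd b hb0 l₂
    rw [h0, eval_zero] at h1
    exact hne (by exact_mod_cast h1.symm)
  have hQP : Q = P := by
    apply mul_right_cancel₀ hne'
    rw [hP]
    exact sub_eq_zero.mp hR
  intro i
  rw [← hQP]
  exact hcoef i

/-- reading lemma for a quotient of products of binomials -/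
theorem read_pos (P : ℤ[X]) (l₁ l₂ : List (ℕ × ℕ)) (w m k C v : ℕ)
    (hP : P * binProd l₂ = binProd l₁)
    (hv : v * valProd (2 ^ w) l₂ = valProd (2 ^ w) l₁)
    (hland : (v + C * on w k) &&& ((2 ^ w - 2 ^ m) * on w k) = 0)
    (hW : v + C * on w k < (2 ^ w) ^ 2 ^ k) (hm : m ≤ w) (hC : C ≤ 2 ^ m)
    (hb : 2 ^ expSum l₂ * 2 ^ m + 2 ^ expSum l₁ < 2 ^ w) (hw : 0 < w)
    (hne : valProd (2 ^ w) l₂ ≠ 0) :
    ∀ i, P.coeff i =
      if i < 2 ^ k then (((v + C * on w k) / (2 ^ w) ^ i % 2 ^ w : ℕ) : ℤ) - C else 0 := by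
  apply read2 P (binProd l₁) l₂ w m k C (v + C * on w k) (2 ^ expSum l₁) hP (Bd_binProd l₁) _ hland
    hW hm hC (by exact_mod_cast hb) hw hne
  rw [eval_binProd _ (by positivity), ← hv]
  push_cast
  ring

/-- reading lemma for minus a quotient of products of binomials -/
theorem read_neg (P : ℤ[X]) (l₁ l₂ : List (ℕ × ℕ)) (w m k C v W : ℕ)
    (hP : P * binProd l₂ = binProd l₁)
    (hv : v * valProd (2 ^ w) l₂ = valProd (2 ^ w) l₁)
    (hWv : W + v = C * on w k)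
    (hland : W &&& ((2 ^ w - 2 ^ m) * on w k) = 0)
    (hW : W < (2 ^ w) ^ 2 ^ k) (hm : m ≤ w) (hC : C ≤ 2 ^ m)
    (hb : 2 ^ expSum l₂ * 2 ^ m + 2 ^ expSum l₁ < 2 ^ w) (hw : 0 < w)
    (hne : valProd (2 ^ w) l₂ ≠ 0) :
    ∀ i, (-P).coeff i =
      if i < 2 ^ k then ((W / (2 ^ w) ^ i % 2 ^ w : ℕ) : ℤ) - C else 0 := by
  apply read2 (-P) (-binProd l₁) l₂ w m k C W (2 ^ expSum l₁) (by rw [neg_mul, hP])
    (by
      intro i
      rw [coeff_neg, abs_neg]
      exact Bd_binProd l₁ i) _ hland hW hm hC (by exact_mod_cast hb) hw hne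
  have h1 : (W : ℤ) + v = C * on w k := by exact_mod_cast hWv
  rw [eval_neg, eval_binProd _ (by positivity), ← hv]
  push_cast
  linear_combination (-1 : ℤ) * (valProd (2 ^ w) l₂ : ℤ) * h1

/-- Bound for the coefficients: less than `2 ^ m - C` in absolute value. -/
theorem bound_of_land (P : ℤ[X]) (l₁ l₂ : List (ℕ × ℕ)) (w m k C v W : ℕ)
    (hP : P * binProd l₂ = binProd l₁)
    (hv : v * valProd (2 ^ w) l₂ = valProd (2 ^ w) l₁)
    (hland : (v + C * on w k) &&& ((2 ^ w - 2 ^ m) * on w k) = 0)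
    (hW : v + C * on w k < (2 ^ w) ^ 2 ^ k)
    (hWv : W + v = C * on w k)
    (hland' : W &&& ((2 ^ w - 2 ^ m) * on w k) = 0)
    (hW' : W < (2 ^ w) ^ 2 ^ k)
    (hm : m ≤ w) (hC : C < 2 ^ m)
    (hb : 2 ^ expSum l₂ * 2 ^ m + 2 ^ expSum l₁ < 2 ^ w) (hw : 0 < w)
    (hne : valProd (2 ^ w) l₂ ≠ 0) (i : ℕ) : (P.coeff i).natAbs < 2 ^ m - C := by
  have h1 := read_pos P l₁ l₂ w m k C v hP hv hland hW hm hC.le hb hw hne i
  have h2 := read_neg P l₁ l₂ w m k C v W hP hv hWv hland' hW' hm hC.le hb hw hne i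
  rw [coeff_neg] at h2
  have h3 : (2 : ℤ) ^ m = ((2 ^ m : ℕ) : ℤ) := by push_cast; rfl
  by_cases hi : i < 2 ^ k
  · rw [if_pos hi] at h1 h2
    have d1 := land_digits w m hm k _ hland i hi
    have d2 := land_digits w m hm k _ hland' i hi
    generalize (v + C * on w k) / (2 ^ w) ^ i % 2 ^ w = x at h1 d1
    generalize W / (2 ^ w) ^ i % 2 ^ w = y at h2 d2
    generalize 2 ^ m = z at *
    omega
  · rw [if_neg hi] at h1
    rw [h1]
    simpa using hC

end Pool.Agent.R877.CY
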