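import Mathlib
import Pool.Agent.R877.CY.Land

/-! The two products `Φ_p Φ_q Φ_{p²q} Φ_{pq²}` and `Φ_p Φ_q Φ_{p²} Φ_{q²}` as quotients of products of
binomials, and the coefficients of `Φ_p Φ_q Φ_{p²q} Φ_{pq²} Φ_{p²q²}`. -/

namespace Pool.Agent.R877.CY

open Polynomial

noncomputable def F1 (p q : ℕ) : ℤ[X] :=
  cyclotomic p ℤ * cyclotomic q ℤ * cyclotomic (p ^ 2 * q) ℤ * cyclotomic (p * q ^ 2) ℤ

noncomputable def F2 (p q : ℕ) : ℤ[X] :=
  cyclotomic p ℤ * cyclotomic q ℤ * cyclotomic (p ^ 2) ℤ * cyclotomic (q ^ 2) ℤ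

theorem cyc_prime (p : ℕ) (hp : p.Prime) :
    cyclotomic p ℤ * (X - 1) = X ^ p - 1 := by
  have := Fact.mk hp
  exact cyclotomic_prime_mul_X_sub_one ℤ p

theorem cyc_sq (p : ℕ) (hp : p.Prime) :
    cyclotomic (p ^ 2) ℤ * (X ^ p - 1) = X ^ p ^ 2 - 1 := by
  have := Fact.mk hp
  have := cyclotomic_prime_pow_mul_X_pow_sub_one ℤ p 1
  simpa using this

theorem expand_bin (r e : ℕ) : expand ℤ r (X ^ e - 1 : ℤ[X]) = X ^ (r * e) - 1 := by
  simp [pow_mul]

theorem cyc_pq (p q : ℕ) (hp : p.Prime) (hq : q.Prime) (hpq : p ≠ q) :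
    cyclotomic (p * q) ℤ * (X ^ p - 1) * (X ^ q - 1) = (X ^ (p * q) - 1) * (X - 1) := by
  have h1 : expand ℤ q (cyclotomic p ℤ) = cyclotomic (p * q) ℤ * cyclotomic p ℤ :=
    cyclotomic_expand_eq_cyclotomic_mul hq (fun h => hpq ((Nat.prime_dvd_prime_iff_eq hq hp).mp h).symm) ℤ
  have h2 := congrArg (expand ℤ q) (cyc_prime p hp)
  rw [map_mul, h1, expand_bin] at h2
  have h3 : expand ℤ q (X - 1 : ℤ[X]) = X ^ q - 1 := by simp
  rw [h3] at h2
  rw [← cyc_prime p hp]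
  rw [mul_comm q p] at h2
  rw [← h2]
  ring

theorem cyc_ppq (p q : ℕ) (hp : p.Prime) (hq : q.Prime) (hpq : p ≠ q) :
    cyclotomic (p ^ 2 * q) ℤ * (X ^ p ^ 2 - 1) * (X ^ (p * q) - 1) =
      (X ^ (p ^ 2 * q) - 1) * (X ^ p - 1) := by
  have h1 : expand ℤ p (cyclotomic (p * q) ℤ) = cyclotomic (p * q * p) ℤ :=
    cyclotomic_expand_eq_cyclotomic hp (Dvd.intro _ rfl) ℤ
  have h2 := congrArg (expand ℤ p) (cyc_pq p q hp hq hpq)
  rw [map_mul, map_mul, map_mul, h1, expand_bin, expand_bin, expand_bin] at h2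
  have h3 : expand ℤ p (X - 1 : ℤ[X]) = X ^ p - 1 := by simp
  rw [h3] at h2
  have e1 : p * q * p = p ^ 2 * q := by ring
  have e2 : p * p = p ^ 2 := by ring
  have e3 : p * (p * q) = p ^ 2 * q := by ring
  rw [e1, e2, e3] at h2
  exact h2

theorem F1_mul (p q : ℕ) (hp : p.Prime) (hq : q.Prime) (hpq : p ≠ q) :
    F1 p q * binProd [(1, 2), (p ^ 2, 1), (q ^ 2, 1), (p * q, 2)] =
      binProd [(p, 2), (q, 2), (p ^ 2 * q, 1), (p * q ^ 2, 1)] := by
  have h1 := cyc_prime p hp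
  have h2 := cyc_prime q hq
  have h3 := cyc_ppq p q hp hq hpq
  have h4 := cyc_ppq q p hq hp hpq.symm
  rw [mul_comm q p, mul_comm (q ^ 2) p] at h4
  simp only [binProd, List.map_cons, List.map_nil, List.prod_cons, List.prod_nil, pow_one, mul_one,
    F1]
  calc _ = (cyclotomic p ℤ * (X - 1)) * (cyclotomic q ℤ * (X - 1)) *
        (cyclotomic (p ^ 2 * q) ℤ * (X ^ p ^ 2 - 1) * (X ^ (p * q) - 1)) *
        (cyclotomic (p * q ^ 2) ℤ * (X ^ q ^ 2 - 1) * (X ^ (p * q) - 1)) := by ring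
    _ = _ := by
      rw [h1, h2, h3, h4]
      ring

theorem F2_mul (p q : ℕ) (hp : p.Prime) (hq : q.Prime) :
    F2 p q * binProd [(1, 2)] = binProd [(p ^ 2, 1), (q ^ 2, 1)] := by
  have h1 := cyc_prime p hp
  have h2 := cyc_prime q hq
  have h3 := cyc_sq p hp
  have h4 := cyc_sq q hq
  simp only [binProd, List.map_cons, List.map_nil, List.prod_cons, List.prod_nil, pow_one, mul_one,
    F2]
  calc _ = (cyclotomic (p ^ 2) ℤ * (cyclotomic p ℤ * (X - 1))) *
        (cyclotomic (q ^ 2) ℤ * (cyclotomic q ℤ * (X - 1))) := by ring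
    _ = _ := by
      rw [h1, h2, h3, h4]

theorem cyc_pq_mul (p q : ℕ) (hp : p.Prime) (hq : q.Prime) (hpq : p ≠ q) :
    cyclotomic (p * q) ℤ * binProd [(p, 1), (q, 1)] = binProd [(1, 1), (p * q, 1)] := by
  have h1 := cyc_pq p q hp hq hpq
  simp only [binProd, List.map_cons, List.map_nil, List.prod_cons, List.prod_nil, pow_one, mul_one]
  rw [← mul_assoc, h1, mul_comm]

theorem cyc_ppqq (p q : ℕ) (hp : p.Prime) (hq : q.Prime) :
    cyclotomic (p ^ 2 * q ^ 2) ℤ = expand ℤ (p * q) (cyclotomic (p * q) ℤ) := by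
  have h1 : expand ℤ p (cyclotomic (p * q) ℤ) = cyclotomic (p * q * p) ℤ :=
    cyclotomic_expand_eq_cyclotomic hp (Dvd.intro _ rfl) ℤ
  have h2 : expand ℤ q (cyclotomic (p * q * p) ℤ) = cyclotomic (p * q * p * q) ℤ :=
    cyclotomic_expand_eq_cyclotomic hq ⟨p * p, by ring⟩ ℤ
  rw [mul_comm p q, ← expand_expand, mul_comm q p, h1, h2]
  congr 1
  ring

theorem prod5_dvd (n a b c d e : ℕ) (hn : 0 < n) (hnd : [a, b, c, d, e].Nodup)
    (hdvd : ∀ x ∈ [a, b, c, d, e], x ∣ n) :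
    cyclotomic a ℤ * cyclotomic b ℤ * cyclotomic c ℤ * cyclotomic d ℤ * cyclotomic e ℤ ∣
      X ^ n - 1 := by
  rw [← prod_cyclotomic_eq_X_pow_sub_one hn]
  have h1 : [a, b, c, d, e].toFinset ⊆ n.divisors := by
    intro x hx
    rw [List.mem_toFinset] at hx
    exact Nat.mem_divisors.mpr ⟨hdvd x hx, hn.ne'⟩
  have h2 := Finset.prod_dvd_prod_of_subset _ _ (fun d => cyclotomic d ℤ) h1
  rw [List.prod_toFinset _ hnd] at h2
  simp only [List.map_cons, List.map_nil, List.prod_cons, List.prod_nil, mul_one] at h2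
  simpa only [mul_assoc] using h2

theorem coeff_mul_expand (P Q : ℤ[X]) (r i K : ℕ) (hK : i < r * K) :
    (P * expand ℤ r Q).coeff i =
      ∑ j ∈ Finset.range K, if r * j ≤ i then Q.coeff j * P.coeff (i - r * j) else 0 := by
  have h1 : expand ℤ r Q = ∑ j ∈ Finset.range (max K (Q.natDegree + 1)),
      Polynomial.C (Q.coeff j) * X ^ (r * j) := by
    rw [expand_eq_sum, sum_over_range' _ _ (max K (Q.natDegree + 1)) (by omega)]
    · simp only [pow_mul]
    · simp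
  rw [h1, Finset.mul_sum, finsetSum_coeff]
  have h2 : ∀ j, (P * (Polynomial.C (Q.coeff j) * X ^ (r * j))).coeff i =
      if r * j ≤ i then Q.coeff j * P.coeff (i - r * j) else 0 := by
    intro j
    have e : P * (Polynomial.C (Q.coeff j) * X ^ (r * j)) =
        Polynomial.C (Q.coeff j) * (P * X ^ (r * j)) := by ring
    rw [e, coeff_C_mul, coeff_mul_X_pow']
    split_ifs <;> simp
  simp only [h2]
  symm
  apply Finset.sum_subset
  · intro j hj
    rw [Finset.mem_range] at *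
    omega
  · intro j _ hj
    rw [Finset.mem_range] at hj
    push Not at hj
    rw [if_neg]
    have := Nat.mul_le_mul_left r hj
    omega

/-- sum of `2 ^ k` consecutive values, in binary splitting order -/
def sumR (t : ℕ → ℤ) (k : ℕ) : ℕ → ℤ :=
  Nat.rec (motive := fun _ => ℕ → ℤ) (fun s => t s)
    (fun k ih s => ih s + ih (Nat.add s (Nat.pow 2 k))) k

theorem sumR_zero (t : ℕ → ℤ) (s : ℕ) : sumR t 0 s = t s := rfl

theorem sumR_succ (t : ℕ → ℤ) (k s : ℕ) : sumR t (k + 1) s = sumR t k s + sumR t k (s + 2 ^ k) := rfl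

theorem sumR_spec (t : ℕ → ℤ) (k : ℕ) : ∀ s, sumR t k s = ∑ j ∈ Finset.range (2 ^ k), t (s + j) := by
  induction k with
  | zero => intro s; rw [sumR_zero]; simp
  | succ k ih =>
    intro s
    rw [sumR_succ, ih, ih, pow_succ, mul_two, Finset.sum_range_add]
    simp only [add_assoc]

end Pool.Agent.R877.CY
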