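import Mathlib
import Pool.Agent.R877.CY.Cyc

/-! Kernel computations: the values of `P_odd` and `P_even` of `10374` at `b = 2 ^ 128`. -/

namespace Pool.Agent.R877.CY

open Polynomial

def b : ℕ := 2 ^ 128

def C : ℕ := 8415683487216

def ones : ℕ := (b ^ 2 ^ 13 - 1) / (b - 1)

def vO : ℕ := valProd b lO / valProd b lE

def vE : ℕ := valProd b lE / valProd b lO'

theorem ones_eq : (b - 1) * ones + 1 = b ^ 2 ^ 13 := by decide +kernel

theorem vO_eq : vO * valProd b lE = valProd b lO := by decide +kernel

theorem vE_eq : vE * valProd b lO' = valProd b lE := by decide +kernel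

theorem ne1 : valProd b lE ≠ 0 := by decide +kernel

theorem ne2 : valProd b lO' ≠ 0 := by decide +kernel

theorem hb1 : 2 ^ expSum lE * C + 2 ^ expSum lO < b := by decide +kernel

theorem hb2 : 2 ^ expSum lO' * C + 2 ^ expSum lE < b := by decide +kernel

theorem hC : 2 * C < b := by decide +kernel

theorem chkO : chk b (2 * C) 13 (vO + C * ones) = true := by decide +kernel

theorem chkE : chk b (2 * C) 13 (vE + C * ones) = true := by decide +kernel

theorem dig1 : (vO + C * ones) / b ^ 2589 % b = 12987686861232 := by decide +kernel

theorem dig2 : (vO + C * ones) / b ^ 2590 % b = 3585989398320 := by decide +kernel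

end Pool.Agent.R877.CY
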