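import Mathlib
import Pool.Agent.R877.CY.Kernel

/-! Bounds for the coefficients of `P_odd` and `P_even` of `10374`, and two coefficients of `P_odd`. -/

namespace Pool.Agent.R877.CY

open Polynomial

theorem coeff_Podd (i : ℕ) : (Podd N).coeff i =
    if i < 2 ^ 13 then (((vO + C * ones) / b ^ i % b : ℕ) : ℤ) - C else 0 :=
  read (Podd N) lO lE b C 13 vO ones Podd_mul vO_eq ones_eq chkO hb1 hC ne1 i

theorem coeff_Peven (i : ℕ) : (Peven N).coeff i =
    if i < 2 ^ 13 then (((vE + C * ones) / b ^ i % b : ℕ) : ℤ) - C else 0 :=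
  read (Peven N) lE lO' b C 13 vE ones Peven_mul vE_eq ones_eq chkE hb2 hC ne2 i

theorem natAbs_le (W c i : ℕ) (h : W ≤ 2 * c) :
    ((if i < 2 ^ 13 then ((W : ℕ) : ℤ) - c else 0 : ℤ)).natAbs ≤ c := by
  split_ifs
  · omega
  · simp

theorem Podd_le (i : ℕ) : ((Podd N).coeff i).natAbs ≤ C := by
  rw [coeff_Podd]
  exact natAbs_le _ _ _ ((chk_spec b (2 * C) hC 13 _ chkO).2 i)

theorem Peven_le (i : ℕ) : ((Peven N).coeff i).natAbs ≤ C := by
  rw [coeff_Peven]
  exact natAbs_le _ _ _ ((chk_spec b (2 * C) hC 13 _ chkE).2 i)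

theorem coeff_f : ((X - 1) * Podd N).coeff 2590 = 9401697462912 := by
  have e1 : ((X - 1) * Podd N).coeff 2590 = (Podd N).coeff 2589 - (Podd N).coeff 2590 := by
    rw [sub_mul, one_mul, coeff_sub, coeff_X_mul]
  rw [e1, coeff_Podd, coeff_Podd, if_pos (by norm_num), if_pos (by norm_num), dig1, dig2]
  generalize C = c
  push_cast
  ring

theorem f_dvd : (X - 1) * Podd N ∣ X ^ N - 1 := by
  rw [← Podd_mul_Peven N (by norm_num), mul_comm]
  exact mul_dvd_mul_left _ (X_sub_one_dvd_Peven N (by norm_num))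

end Pool.Agent.R877.CY
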