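import Mathlib
import Pool.Agent.R877.CY.Cyc2

/-! Kernel computations for `p = 19`, `q = 149` (base `2 ^ 20`). -/

namespace Pool.Agent.R877.CY.K2

open Polynomial

def n1 : List (ℕ × ℕ) := [(19, 2), (149, 2), (53789, 1), (421819, 1)]
def d1 : List (ℕ × ℕ) := [(1, 2), (361, 1), (22201, 1), (2831, 2)]
def n2 : List (ℕ × ℕ) := [(361, 1), (22201, 1)]
def d2 : List (ℕ × ℕ) := [(1, 2)]
def n3 : List (ℕ × ℕ) := [(1, 1), (2831, 1)]
def d3 : List (ℕ × ℕ) := [(19, 1), (149, 1)]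

def v1 : ℕ := valProd (2 ^ 20) n1 / valProd (2 ^ 20) d1
def v2 : ℕ := valProd (2 ^ 20) n2 / valProd (2 ^ 20) d2
def v3 : ℕ := valProd (2 ^ 20) n3 / valProd (2 ^ 20) d3

def W1 : ℕ := v1 + 1213 * on 20 19
def W1' : ℕ := 1213 * on 20 19 - v1
def W2 : ℕ := v2 + 1213 * on 20 15
def W2' : ℕ := 1213 * on 20 15 - v2
def W3 : ℕ := v3 + 1 * on 20 12

theorem hv1 : v1 * valProd (2 ^ 20) d1 = valProd (2 ^ 20) n1 := by decide +kernel
theorem hv2 : v2 * valProd (2 ^ 20) d2 = valProd (2 ^ 20) n2 := by decide +kernel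
theorem hv3 : v3 * valProd (2 ^ 20) d3 = valProd (2 ^ 20) n3 := by decide +kernel

theorem hl1 : W1 &&& ((2 ^ 20 - 2 ^ 11) * on 20 19) = 0 := by decide +kernel
theorem hl1' : W1' &&& ((2 ^ 20 - 2 ^ 11) * on 20 19) = 0 := by decide +kernel
theorem hl2 : W2 &&& ((2 ^ 20 - 2 ^ 11) * on 20 15) = 0 := by decide +kernel
theorem hl2' : W2' &&& ((2 ^ 20 - 2 ^ 11) * on 20 15) = 0 := by decide +kernel
theorem hl3 : W3 &&& ((2 ^ 20 - 2 ^ 2) * on 20 12) = 0 := by decide +kernel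

theorem hs1 : W1 < (2 ^ 20) ^ 2 ^ 19 := by decide +kernel
theorem hs1' : W1' < (2 ^ 20) ^ 2 ^ 19 := by decide +kernel
theorem hs2 : W2 < (2 ^ 20) ^ 2 ^ 15 := by decide +kernel
theorem hs2' : W2' < (2 ^ 20) ^ 2 ^ 15 := by decide +kernel
theorem hs3 : W3 < (2 ^ 20) ^ 2 ^ 12 := by decide +kernel

theorem hw1 : W1' + v1 = 1213 * on 20 19 := by decide +kernel
theorem hw2 : W2' + v2 = 1213 * on 20 15 := by decide +kernel

theorem hn1 : valProd (2 ^ 20) d1 ≠ 0 := by decide +kernel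
theorem hn2 : valProd (2 ^ 20) d2 ≠ 0 := by decide +kernel
theorem hn3 : valProd (2 ^ 20) d3 ≠ 0 := by decide +kernel

theorem hb1 : 2 ^ expSum d1 * 2 ^ 11 + 2 ^ expSum n1 < 2 ^ 20 := by decide +kernel
theorem hb2 : 2 ^ expSum d2 * 2 ^ 11 + 2 ^ expSum n2 < 2 ^ 20 := by decide +kernel
theorem hb3 : 2 ^ expSum d3 * 2 ^ 2 + 2 ^ expSum n3 < 2 ^ 20 := by decide +kernel

/-- the terms of the coefficient at `1456798` -/
def tm (j : ℕ) : ℤ :=
  cond (Nat.ble (Nat.mul 2831 j) 1456798)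
    (cond (Nat.ble (Nat.sub 1456798 (Nat.mul 2831 j)) 524287)
      (Int.mul
        (Int.sub (Int.ofNat (Nat.mod (Nat.div W3 (Nat.pow 1048576 j)) 1048576)) 1)
        (Int.sub (Int.ofNat (Nat.mod (Nat.div W1
          (Nat.pow 1048576 (Nat.sub 1456798 (Nat.mul 2831 j)))) 1048576)) 1213))
      0)
    0

theorem sum_tm : sumR tm 10 0 = -835 := by decide +kernel

end Pool.Agent.R877.CY.K2
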