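import Mathlib
import Pool.Agent.R877.CY.Kernel2

/-! The two heights for `p = 19`, `q = 149` are at most `834`, and a divisor has the coefficient
`-835`. -/

namespace Pool.Agent.R877.CY.K2

open Polynomial

theorem bound' (P : ℤ[X]) (l₁ l₂ : List (ℕ × ℕ)) (w m k C v W₀ W : ℕ)
    (hP : P * binProd l₂ = binProd l₁)
    (hv : v * valProd (2 ^ w) l₂ = valProd (2 ^ w) l₁)
    (hW₀ : W₀ = v + C * on w k)
    (hland : W₀ &&& ((2 ^ w - 2 ^ m) * on w k) = 0)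
    (hW : W₀ < (2 ^ w) ^ 2 ^ k)
    (hWv : W + v = C * on w k)
    (hland' : W &&& ((2 ^ w - 2 ^ m) * on w k) = 0)
    (hW' : W < (2 ^ w) ^ 2 ^ k)
    (hm : m ≤ w) (hC : C < 2 ^ m)
    (hb : 2 ^ expSum l₂ * 2 ^ m + 2 ^ expSum l₁ < 2 ^ w) (hw : 0 < w)
    (hne : valProd (2 ^ w) l₂ ≠ 0) : ∀ i, (P.coeff i).natAbs < 2 ^ m - C := by
  subst hW₀
  exact bound_of_land P l₁ l₂ w m k C v W hP hv hland hW hWv hland' hW' hm hC hb hw hne

theorem read' (P : ℤ[X]) (l₁ l₂ : List (ℕ × ℕ)) (w m k C v W₀ : ℕ)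
    (hP : P * binProd l₂ = binProd l₁)
    (hv : v * valProd (2 ^ w) l₂ = valProd (2 ^ w) l₁)
    (hW₀ : W₀ = v + C * on w k)
    (hland : W₀ &&& ((2 ^ w - 2 ^ m) * on w k) = 0)
    (hW : W₀ < (2 ^ w) ^ 2 ^ k) (hm : m ≤ w) (hC : C < 2 ^ m)
    (hb : 2 ^ expSum l₂ * 2 ^ m + 2 ^ expSum l₁ < 2 ^ w) (hw : 0 < w)
    (hne : valProd (2 ^ w) l₂ ≠ 0) :
    ∀ i, P.coeff i = if i < 2 ^ k then ((W₀ / (2 ^ w) ^ i % 2 ^ w : ℕ) : ℤ) - C else 0 := by
  subst hW₀
  exact read_pos P l₁ l₂ w m k C v hP hv hland hW hm hC.le hb hw hne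

theorem W1_eq : W1 = v1 + 1213 * on 20 19 := by unfold W1; rfl
theorem W2_eq : W2 = v2 + 1213 * on 20 15 := by unfold W2; rfl
theorem W3_eq : W3 = v3 + 1 * on 20 12 := by unfold W3; rfl

theorem P1_gen (p q a b c d e : ℕ) (hp : p.Prime) (hq : q.Prime) (hpq : p ≠ q)
    (ha : p ^ 2 = a) (hb : q ^ 2 = b) (hc : p * q = c) (hd : p ^ 2 * q = d) (he : p * q ^ 2 = e) :
    F1 p q * binProd [(1, 2), (a, 1), (b, 1), (c, 2)] =
      binProd [(p, 2), (q, 2), (d, 1), (e, 1)] := by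
  subst ha hb hc hd he
  exact F1_mul p q hp hq hpq

theorem a1 : 19 ^ 2 * 149 = 53789 := by norm_num

theorem a2 : 19 * 149 ^ 2 = 421819 := by norm_num

theorem d1_eq : d1 = [(1, 2), (361, 1), (22201, 1), (2831, 2)] := rfl

theorem n1_eq : n1 = [(19, 2), (149, 2), (53789, 1), (421819, 1)] := rfl

theorem P1_mul' : F1 19 149 * binProd [(1, 2), (361, 1), (22201, 1), (2831, 2)] =
    binProd [(19, 2), (149, 2), (53789, 1), (421819, 1)] :=
  P1_gen 19 149 361 22201 2831 53789 421819 (by norm_num) (by norm_num) (by norm_num)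
    (by norm_num) (by norm_num) (by norm_num) a1 a2

theorem P1_mul : F1 19 149 * binProd d1 = binProd n1 := by
  rw [d1_eq, n1_eq]
  exact P1_mul'

theorem P2_gen (p q a b : ℕ) (hp : p.Prime) (hq : q.Prime)
    (ha : p ^ 2 = a) (hb : q ^ 2 = b) :
    F2 p q * binProd [(1, 2)] = binProd [(a, 1), (b, 1)] := by
  subst ha hb
  exact F2_mul p q hp hq

theorem P2_mul : F2 19 149 * binProd d2 = binProd n2 := by
  have h := P2_gen 19 149 361 22201 (by norm_num) (by norm_num) (by norm_num) (by norm_num)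
  unfold d2 n2
  exact h

noncomputable def Ph (n : ℕ) : ℤ[X] := cyclotomic n ℤ

theorem P3_gen (p q c : ℕ) (hp : p.Prime) (hq : q.Prime) (hpq : p ≠ q) (hc : p * q = c) :
    Ph c * binProd [(p, 1), (q, 1)] = binProd [(1, 1), (c, 1)] := by
  subst hc
  exact cyc_pq_mul p q hp hq hpq

theorem P3_mul : Ph 2831 * binProd d3 = binProd n3 := by
  have h := P3_gen 19 149 2831 (by norm_num) (by norm_num) (by norm_num) (by norm_num)
  unfold d3 n3
  exact h

theorem F1_le : ∀ i, ((F1 19 149).coeff i).natAbs < 2 ^ 11 - 1213 :=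
  bound' (F1 19 149) n1 d1 20 11 19 1213 v1 W1 W1' P1_mul hv1 W1_eq hl1 hs1 hw1 hl1' hs1'
    (by norm_num) (by norm_num) hb1 (by norm_num) hn1

theorem F2_le : ∀ i, ((F2 19 149).coeff i).natAbs < 2 ^ 11 - 1213 :=
  bound' (F2 19 149) n2 d2 20 11 15 1213 v2 W2 W2' P2_mul hv2 W2_eq hl2 hs2 hw2 hl2' hs2'
    (by norm_num) (by norm_num) hb2 (by norm_num) hn2

theorem F1_coeff : ∀ i, (F1 19 149).coeff i =
    if i < 2 ^ 19 then ((W1 / (2 ^ 20) ^ i % 2 ^ 20 : ℕ) : ℤ) - (1213 : ℕ) else 0 :=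
  read' (F1 19 149) n1 d1 20 11 19 1213 v1 W1 P1_mul hv1 W1_eq hl1 hs1
    (by norm_num) (by norm_num) hb1 (by norm_num) hn1

theorem Phi_coeff : ∀ i, (Ph 2831).coeff i =
    if i < 2 ^ 12 then ((W3 / (2 ^ 20) ^ i % 2 ^ 20 : ℕ) : ℤ) - (1 : ℕ) else 0 :=
  read' (Ph 2831) n3 d3 20 2 12 1 v3 W3 P3_mul hv3 W3_eq hl3 hs3
    (by norm_num) (by norm_num) hb3 (by norm_num) hn3

theorem tm_eq (j : ℕ) (hj : j < 4096) :
    (if 2831 * j ≤ 1456798 then (Ph 2831).coeff j * (F1 19 149).coeff (1456798 - 2831 * j) else 0) =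
      tm j := by
  rw [Phi_coeff, F1_coeff]
  unfold tm
  have e1 : (2 : ℕ) ^ 20 = 1048576 := by norm_num
  have e2 : (2 : ℕ) ^ 19 = 524288 := by norm_num
  have e3 : (2 : ℕ) ^ 12 = 4096 := by norm_num
  rw [e1, e2, e3]
  generalize W1 = w1
  generalize W3 = w3
  rw [if_pos hj]
  by_cases h1 : 2831 * j ≤ 1456798
  · have h1' : Nat.ble (Nat.mul 2831 j) 1456798 = true := Nat.ble_eq.mpr h1
    rw [if_pos h1, h1', cond_true]
    by_cases h2 : 1456798 - 2831 * j < 524288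
    · have h2' : Nat.ble (Nat.sub 1456798 (Nat.mul 2831 j)) 524287 = true :=
        Nat.ble_eq.mpr (Nat.le_of_lt_succ h2)
      rw [if_pos h2, h2', cond_true]
      rfl
    · have h2' : Nat.ble (Nat.sub 1456798 (Nat.mul 2831 j)) 524287 = false := by
        rw [Bool.eq_false_iff]
        intro h
        exact h2 (Nat.lt_succ_of_le (Nat.ble_eq.mp h))
      rw [if_neg h2, h2', cond_false, mul_zero]
  · have h1' : Nat.ble (Nat.mul 2831 j) 1456798 = false := by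
      rw [Bool.eq_false_iff]
      intro h
      exact h1 (Nat.ble_eq.mp h)
    rw [if_neg h1, h1', cond_false]

theorem ppqq_gen (p q c n : ℕ) (hp : p.Prime) (hq : q.Prime) (hc : p * q = c)
    (hn : p ^ 2 * q ^ 2 = n) : Ph n = expand ℤ c (Ph c) := by
  subst hc hn
  exact cyc_ppqq p q hp hq

theorem coeff_gen (P Q : ℤ[X]) (r i k : ℕ) (t : ℕ → ℤ) (v : ℤ) (hK : i < r * 2 ^ k)
    (ht : ∀ j, j < 2 ^ k → (if r * j ≤ i then Q.coeff j * P.coeff (i - r * j) else 0) = t j)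
    (hs : sumR t k 0 = v) : (P * expand ℤ r Q).coeff i = v := by
  rw [coeff_mul_expand P Q r i (2 ^ k) hK, ← hs, sumR_spec]
  apply Finset.sum_congr rfl
  intro j hj
  rw [ht j (Finset.mem_range.mp hj), Nat.zero_add]

theorem Ph_eq : Ph 8014561 = expand ℤ 2831 (Ph 2831) :=
  ppqq_gen 19 149 2831 8014561 (by norm_num) (by norm_num) (by norm_num) (by norm_num)

theorem coeff_f : (F1 19 149 * Ph 8014561).coeff 1456798 = -835 := by
  rw [Ph_eq]
  exact coeff_gen (F1 19 149) (Ph 2831) 2831 1456798 10 tm (-835) (by norm_num)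
    (fun j hj => tm_eq j (lt_trans hj (by norm_num))) sum_tm

theorem f_dvd_gen (p q a b n : ℕ) (hn : 0 < n) (ha : p ^ 2 * q = a) (hb : p * q ^ 2 = b)
    (hnd : [p, q, a, b, n].Nodup) (hd : ∀ x ∈ [p, q, a, b, n], x ∣ n) :
    F1 p q * Ph n ∣ X ^ n - 1 := by
  subst ha hb
  exact prod5_dvd n p q _ _ n hn hnd hd

theorem f_dvd : F1 19 149 * Ph 8014561 ∣ X ^ 8014561 - 1 :=
  f_dvd_gen 19 149 53789 421819 8014561 (by norm_num) a1 a2 (by decide) (by
    intro x hx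
    simp only [List.mem_cons, List.not_mem_nil, or_false] at hx
    rcases hx with rfl | rfl | rfl | rfl | rfl <;> norm_num)

end Pool.Agent.R877.CY.K2
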